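import Pool.Agent.V11176.QIneq

/-!
# Monotonicity in `t` of 2-hook totals over `t`-regular partitions
-/

namespace Pool.Agent.Results.MP_6996b5_co.TwoHookMonotone

open Finset

/-! ### Definitions -/

/-- The parts `λ_1 ≥ λ_2 ≥ …` of a partition, in decreasing order. -/
noncomputable def lst {n : ℕ} (lam : n.Partition) : List ℕ := lam.parts.sort (· ≥ ·)

/-- The part `λ_i`, `i ≥ 1` (it is `0` if `i` is larger than the number of parts). -/
noncomputable def part {n : ℕ} (lam : n.Partition) (i : ℕ) : ℕ := (lst lam).getD (i - 1) 0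

/-- The part `λ'_j` of the conjugate partition, `j ≥ 1`: the number of parts `≥ j`. -/
def cpart {n : ℕ} (lam : n.Partition) (j : ℕ) : ℕ := lam.parts.countP (j ≤ ·)

/-- The hook length `λ_i - j + λ'_j - i + 1` of the cell `(i,j)`. -/
noncomputable def hook {n : ℕ} (lam : n.Partition) (i j : ℕ) : ℤ :=
  (part lam i : ℤ) - j + cpart lam j - i + 1

/-- `h_k(λ)`: the number of cells `(i,j)` (`i, j ≥ 1` and `j ≤ λ_i`) of hook length `k`. -/
noncomputable def hk {n : ℕ} (k : ℕ) (lam : n.Partition) : ℕ :=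
  #{c ∈ range (n + 1) ×ˢ range (n + 1) |
    1 ≤ c.1 ∧ 1 ≤ c.2 ∧ c.2 ≤ part lam c.1 ∧ hook lam c.1 c.2 = k}

/-- `b_{t,k}(n)`: the sum of `h_k(λ)` over the `t`-regular partitions `λ` of `n`. -/
noncomputable def b (t k n : ℕ) : ℕ :=
  ∑ lam : n.Partition with ∀ x ∈ lam.parts, ¬ t ∣ x, hk k lam

/-! ### Parts and conjugate parts -/

theorem getD_countP (l : List ℕ) (hl : l.Pairwise (· ≥ ·)) (v : ℕ) (hv : 1 ≤ v) (i : ℕ) :
    v ≤ l.getD i 0 ↔ i < l.countP (v ≤ ·) := by
  induction l generalizing i with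
  | nil => simp; omega
  | cons a t ih =>
    obtain ⟨h1, h2⟩ := List.pairwise_cons.1 hl
    by_cases hva : v ≤ a
    · rw [List.countP_cons_of_pos (by simpa using hva)]
      cases i with
      | zero => simp [hva]
      | succ i =>
        rw [List.getD_cons_succ, ih h2 i]
        omega
    · have h3 : (a :: t).countP (fun x => decide (v ≤ x)) = 0 := by
        rw [List.countP_eq_zero]
        intro x hx
        simp only [decide_eq_true_eq]
        rcases List.mem_cons.1 hx with rfl | hx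
        · exact hva
        · have := h1 x hx
          omega
      rw [h3]
      simp only [not_lt_zero, iff_false, not_le]
      by_cases hi : i < (a :: t).length
      · rw [List.getD_eq_getElem _ _ hi]
        have h4 := List.getElem_mem hi
        rcases List.mem_cons.1 h4 with h5 | h5
        · omega
        · have := h1 _ h5
          omega
      · rw [List.getD_eq_default _ _ (by omega)]
        omega

theorem le_part_iff {n : ℕ} (lam : n.Partition) (v i : ℕ) (hv : 1 ≤ v) (hi : 1 ≤ i) :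
    v ≤ part lam i ↔ i ≤ cpart lam v := by
  have hp : (lst lam).Pairwise (· ≥ ·) := Multiset.pairwise_sort _ _
  unfold part cpart
  rw [getD_countP _ hp v hv]
  have h : (lst lam).countP (v ≤ ·) = lam.parts.countP (v ≤ ·) := by
    have := Multiset.sort_eq lam.parts (· ≥ ·)
    conv_rhs => rw [← this]
    rw [Multiset.coe_countP]
    rfl
  rw [h]
  omega

theorem countP_succ (s : Multiset ℕ) (v : ℕ) :
    s.countP (v ≤ ·) = s.countP (v + 1 ≤ ·) + s.count v := by
  induction s using Multiset.induction_on with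
  | empty => simp
  | cons a s ih =>
    rw [Multiset.countP_cons, Multiset.countP_cons, Multiset.count_cons, ih]
    split_ifs <;> omega

theorem cpart_succ {n : ℕ} (lam : n.Partition) (v : ℕ) :
    cpart lam v = cpart lam (v + 1) + lam.parts.count v := countP_succ _ _

theorem cpart_le {n : ℕ} (lam : n.Partition) (v : ℕ) : cpart lam v ≤ n := by
  unfold cpart
  refine (Multiset.countP_le_card _ _).trans ?_
  have h : ∀ s : Multiset ℕ, (∀ x ∈ s, 0 < x) → Multiset.card s ≤ s.sum := by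
    intro s
    induction s using Multiset.induction_on with
    | empty => simp
    | cons a s ih =>
      intro hs
      rw [Multiset.card_cons, Multiset.sum_cons]
      have h1 := ih fun x hx => hs x (Multiset.mem_cons_of_mem hx)
      have h2 := hs a (Multiset.mem_cons_self a s)
      omega
  have := h lam.parts fun x hx => lam.parts_pos hx
  rwa [lam.parts_sum] at this

theorem part_cpart {n : ℕ} (lam : n.Partition) (v : ℕ) (hv : v ∈ lam.parts) :
    part lam (cpart lam v) = v := by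
  have hv1 : 1 ≤ v := lam.parts_pos hv
  have hc : 1 ≤ lam.parts.count v := Multiset.one_le_count_iff_mem.2 hv
  have h1 := cpart_succ lam v
  have h2 := (le_part_iff lam v (cpart lam v) hv1 (by omega)).2 le_rfl
  have h3 : ¬ v + 1 ≤ part lam (cpart lam v) := by
    rw [le_part_iff lam (v + 1) _ (by omega) (by omega)]
    omega
  omega

/-- The number of hooks of length two. -/
theorem h2_eq {n : ℕ} (lam : n.Partition) :
    hk 2 lam = #(lam.parts.toFinset.filter fun v => 2 ≤ v ∧ v - 1 ∉ lam.parts) +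
      #(lam.parts.toFinset.filter fun v => 2 ≤ lam.parts.count v) := by
  have key : ({c ∈ range (n + 1) ×ˢ range (n + 1) |
      1 ≤ c.1 ∧ 1 ≤ c.2 ∧ c.2 ≤ part lam c.1 ∧ hook lam c.1 c.2 = (2 : ℕ)} : Finset (ℕ × ℕ)) =
      ((lam.parts.toFinset.filter fun v => 2 ≤ v ∧ v - 1 ∉ lam.parts).image
        fun v => (cpart lam v, v - 1)) ∪
      ((lam.parts.toFinset.filter fun v => 2 ≤ lam.parts.count v).image
        fun v => (cpart lam v - 1, v)) := by
    ext ⟨i, j⟩
    simp only [mem_filter, mem_product, mem_range, mem_union, mem_image, Multiset.mem_toFinset,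
      Prod.mk.injEq]
    constructor
    · rintro ⟨-, h1, h2, h3, h4⟩
      have h5 := (le_part_iff lam j i h2 h1).1 h3
      unfold hook at h4
      by_cases hp : part lam i = j
      · right
        have h6 : ¬ j + 1 ≤ part lam i := by omega
        rw [le_part_iff lam _ _ (by omega) h1] at h6
        have h7 := cpart_succ lam j
        refine ⟨j, ⟨?_, by omega⟩, by omega, rfl⟩
        rw [← Multiset.one_le_count_iff_mem]
        omega
      · left
        have h6 : part lam i = j + 1 := by omega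
        have h7 : cpart lam j = i := by omega
        have h8 := (le_part_iff lam (j + 1) i (by omega) h1).1 (by omega)
        have h9 : ¬ j + 1 + 1 ≤ part lam i := by omega
        rw [le_part_iff lam _ _ (by omega) h1] at h9
        have e1 := cpart_succ lam j
        have e2 := cpart_succ lam (j + 1)
        refine ⟨j + 1, ⟨?_, by omega, ?_⟩, by omega, by omega⟩
        · rw [← Multiset.one_le_count_iff_mem]
          omega
        · rw [show j + 1 - 1 = j by omega, ← Multiset.count_eq_zero]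
          omega
    · rintro (⟨v, ⟨h1, h2, h3⟩, h4, h5⟩ | ⟨v, ⟨h1, h2⟩, h4, h5⟩)
      · have hvn : v ≤ n := Nat.Partition.le_of_mem_parts h1
        have hc : 1 ≤ lam.parts.count v := Multiset.one_le_count_iff_mem.2 h1
        have e1 := cpart_succ lam v
        have e2 := cpart_succ lam (v - 1)
        rw [show v - 1 + 1 = v by omega] at e2
        rw [← Multiset.count_eq_zero] at h3
        have e4 := part_cpart lam v h1
        have e5 := cpart_le lam v
        subst h4 h5
        unfold hook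
        rw [e4]
        refine ⟨⟨by omega, by omega⟩, by omega, by omega, by omega, ?_⟩
        omega
      · have hvn : v ≤ n := Nat.Partition.le_of_mem_parts h1
        have hv1 : 1 ≤ v := lam.parts_pos h1
        have e1 := cpart_succ lam v
        have e5 := cpart_le lam v
        subst h4 h5
        have e6 := (le_part_iff lam v (cpart lam v - 1) hv1 (by omega)).2 (by omega)
        have e7 : ¬ v + 1 ≤ part lam (cpart lam v - 1) := by
          rw [le_part_iff lam _ _ (by omega) (by omega)]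
          omega
        unfold hook
        refine ⟨⟨by omega, by omega⟩, by omega, by omega, by omega, ?_⟩
        omega
  unfold hk
  rw [key, card_union_of_disjoint]
  · congr 1
    · apply card_image_of_injOn
      intro v hv v' hv' h
      simp only [coe_filter, Multiset.mem_toFinset, Set.mem_ofPred_eq] at hv hv'
      simp only [Prod.mk.injEq] at h
      omega
    · apply card_image_of_injOn
      intro v hv v' hv' h
      simp only [Prod.mk.injEq] at h
      exact h.2
  · rw [disjoint_left]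
    intro c h1 h2
    simp only [mem_image, mem_filter, Multiset.mem_toFinset] at h1 h2
    obtain ⟨v, ⟨a1, a2, a3⟩, rfl⟩ := h1
    obtain ⟨v', ⟨b1, b2⟩, b3⟩ := h2
    simp only [Prod.mk.injEq] at b3
    obtain ⟨b3, rfl⟩ := b3
    exact a3 b1

/-! ### Counting partitions that contain given parts -/

open PowerSeries Pool.Agent.V11176.QIneq

theorem card_contain (P : ℕ → Prop) [DecidablePred P] (n : ℕ) (s : Multiset ℕ)
    (hs : ∀ x ∈ s, 0 < x ∧ P x) :
    #{lam : n.Partition | (∀ x ∈ lam.parts, P x) ∧ s ≤ lam.parts} =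
      if s.sum ≤ n then #{lam : (n - s.sum).Partition | ∀ x ∈ lam.parts, P x} else 0 := by
  split_ifs with h
  · symm
    refine card_bij (fun mu _ => (⟨mu.parts + s, ?_, ?_⟩ : n.Partition)) ?_ ?_ ?_
    · intro x hx
      rcases Multiset.mem_add.1 hx with hx | hx
      · exact mu.parts_pos hx
      · exact (hs x hx).1
    · rw [Multiset.sum_add, mu.parts_sum]
      omega
    · intro mu hmu
      rw [mem_filter] at hmu ⊢
      refine ⟨mem_univ _, ?_, ?_⟩
      · intro x hx
        rcases Multiset.mem_add.1 hx with hx | hx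
        · exact hmu.2 x hx
        · exact (hs x hx).2
      · exact Multiset.le_add_left _ _
    · intro mu _ mu' _ h
      ext1
      have := congrArg Nat.Partition.parts h
      exact add_right_cancel this
    · intro lam hlam
      rw [mem_filter] at hlam
      refine ⟨⟨lam.parts - s, ?_, ?_⟩, ?_, ?_⟩
      · intro x hx
        exact lam.parts_pos (Multiset.mem_of_le (Multiset.sub_le_self _ _) hx)
      · have h2 := congrArg Multiset.sum (tsub_add_cancel_of_le hlam.2.2)
        rw [Multiset.sum_add, lam.parts_sum] at h2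
        omega
      · rw [mem_filter]
        refine ⟨mem_univ _, fun x hx => ?_⟩
        exact hlam.2.1 x (Multiset.mem_of_le (Multiset.sub_le_self _ _) hx)
      · ext1
        exact tsub_add_cancel_of_le hlam.2.2
  · rw [card_eq_zero, filter_eq_empty_iff]
    intro lam _ hlam
    apply h
    obtain ⟨t, ht⟩ := Multiset.le_iff_exists_add.1 hlam.2
    have h2 := lam.parts_sum
    rw [ht, Multiset.sum_add] at h2
    omega

/-- The generating function of partitions with parts in a finite set. -/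
theorem card_eq_coeff (S : Finset ℕ) (hS : ∀ k ∈ S, 1 ≤ k) (n : ℕ) :
    ((#{lam : n.Partition | ∀ x ∈ lam.parts, x ∈ S} : ℕ) : ℚ) = coeff n (∏ k ∈ S, u k) := by
  induction S using Finset.induction_on generalizing n with
  | empty =>
    rw [prod_empty, coeff_one]
    split_ifs with h
    · subst h
      have : #{lam : (0 : ℕ).Partition | ∀ x ∈ lam.parts, x ∈ (∅ : Finset ℕ)} = 1 := by
        rw [card_eq_one]
        refine ⟨default, ?_⟩
        ext lam
        simp only [mem_filter, mem_univ, true_and, mem_singleton]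
        constructor
        · intro _
          exact Subsingleton.elim _ _
        · rintro rfl x hx
          exfalso
          have h1 := Nat.Partition.le_of_mem_parts hx
          have h2 := (default : (0 : ℕ).Partition).parts_pos hx
          omega
      rw [this]
      norm_num
    · have : #{lam : n.Partition | ∀ x ∈ lam.parts, x ∈ (∅ : Finset ℕ)} = 0 := by
        rw [card_eq_zero, filter_eq_empty_iff]
        intro lam _ hlam
        apply h
        have h2 := lam.parts_sum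
        have h3 : lam.parts = 0 := by
          rw [Multiset.eq_zero_iff_forall_notMem]
          intro x hx
          exact absurd (hlam x hx) (notMem_empty x)
        rw [h3] at h2
        simpa using h2.symm
      rw [this]
      norm_num
  | insert a S ha ih =>
    have ha1 : 1 ≤ a := hS a (mem_insert_self a S)
    have ih' := ih fun k hk => hS k (mem_insert_of_mem hk)
    induction n using Nat.strong_induction_on with
    | _ n ihn =>
      have h1 := card_contain (fun x => x ∈ insert a S) n {a} (by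
        intro x hx
        rw [Multiset.mem_singleton] at hx
        subst hx
        exact ⟨ha1, mem_insert_self _ _⟩)
      rw [Multiset.sum_singleton] at h1
      have h2 : #{lam : n.Partition | ∀ x ∈ lam.parts, x ∈ insert a S} =
          #{lam : n.Partition | ∀ x ∈ lam.parts, x ∈ S} +
          if a ≤ n then #{lam : (n - a).Partition | ∀ x ∈ lam.parts, x ∈ insert a S} else 0 := by
        rw [← h1, ← card_filter_add_card_filter_not (s := univ.filter fun lam : n.Partition =>
          ∀ x ∈ lam.parts, x ∈ insert a S) (p := fun lam : n.Partition => ¬ {a} ≤ lam.parts)]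
        congr 1
        · rw [filter_filter]
          congr 1
          ext lam
          simp only [mem_filter, mem_univ, true_and, Multiset.singleton_le]
          constructor
          · rintro ⟨h1, h2⟩ x hx
            rcases mem_insert.1 (h1 x hx) with h3 | h3
            · exact absurd (h3 ▸ hx) h2
            · exact h3
          · intro h
            exact ⟨fun x hx => mem_insert_of_mem (h x hx), fun h2 => ha (h a h2)⟩
        · rw [filter_filter]
          congr 1
          ext lam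
          simp only [mem_filter, mem_univ, true_and, not_not]
      have h3 : (∏ k ∈ insert a S, u k) = (∏ k ∈ S, u k) + X ^ a * ∏ k ∈ insert a S, u k := by
        have h4 := u_mul a ha1
        rw [prod_insert ha]
        linear_combination (∏ k ∈ S, u k) * h4
      rw [h2, h3, map_add, coeff_X_pow_mul', ← ih' n]
      push_cast
      split_ifs with h
      · rw [ihn _ (by omega)]
      · rfl

/-- `∏_{k ≤ N, t ∤ k} 1/(1 - q^k)` -/
noncomputable def Bt (t N : ℕ) : ℚ⟦X⟧ := ∏ k ∈ (Icc 1 N).filter (fun k => ¬ t ∣ k), u k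

theorem reg_eq (t N m : ℕ) (hm : m ≤ N) :
    ((#{lam : m.Partition | ∀ x ∈ lam.parts, ¬ t ∣ x} : ℕ) : ℚ) = coeff m (Bt t N) := by
  unfold Bt
  rw [← card_eq_coeff]
  · congr 2
    ext lam
    simp only [mem_filter, mem_univ, true_and, mem_Icc]
    constructor
    · intro h x hx
      have := Nat.Partition.le_of_mem_parts hx
      exact ⟨⟨lam.parts_pos hx, by omega⟩, h x hx⟩
    · intro h x hx
      exact (h x hx).2
  · intro k hk
    rw [mem_filter, mem_Icc] at hk
    exact hk.1.1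

theorem Bt_mono (t N m : ℕ) (ht : 1 ≤ t) (hm : m ≤ N) :
    coeff m (Bt t N) ≤ coeff m (Bt (t + 1) N) := by
  rw [← reg_eq t N m hm, ← reg_eq (t + 1) N m hm]
  have h1 := Nat.Partition.card_restricted_eq_card_countRestricted m (m := t) (by omega)
  have h2 := Nat.Partition.card_restricted_eq_card_countRestricted m (m := t + 1) (by omega)
  unfold Nat.Partition.restricted at h1 h2
  rw [h1, h2]
  have h3 : #(Nat.Partition.countRestricted m t) ≤ #(Nat.Partition.countRestricted m (t + 1)) := by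
    apply card_le_card
    intro lam hlam
    unfold Nat.Partition.countRestricted at *
    rw [mem_filter] at *
    refine ⟨mem_univ _, fun i hi => ?_⟩
    have := hlam.2 i hi
    omega
  exact_mod_cast h3

/-! ### The generating function of `b_{t,2}` -/

/-- the coefficients of `W_t` -/
def wc (t e : ℕ) : ℚ :=
  (if 2 ≤ e ∧ ¬ t ∣ e then 1 else 0) -
  (if e % 2 = 1 ∧ 3 ≤ e ∧ ¬ t ∣ (e - 1) / 2 ∧ ¬ t ∣ (e + 1) / 2 then 1 else 0) +
  (if e % 2 = 0 ∧ 2 ≤ e ∧ ¬ t ∣ e / 2 then 1 else 0)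

/-- `∑_v (…)`, truncated -/
noncomputable def WN (t n : ℕ) : ℚ⟦X⟧ :=
  (∑ v ∈ Icc 2 n, (if ¬ t ∣ v then X ^ v else 0)) -
  (∑ v ∈ Icc 2 n, (if ¬ t ∣ v - 1 ∧ ¬ t ∣ v then X ^ (2 * v - 1) else 0)) +
  ∑ v ∈ Icc 1 n, (if ¬ t ∣ v then X ^ (2 * v) else 0)

theorem coeff_WN (t n e : ℕ) (he : e ≤ n) : coeff e (WN t n) = wc t e := by
  unfold WN wc
  rw [map_add, map_sub, map_sum, map_sum, map_sum]
  congr 1
  · congr 1
    · have : ∀ v ∈ Icc 2 n, coeff e (if ¬ t ∣ v then (X : ℚ⟦X⟧) ^ v else 0) =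
          if v = e then (if ¬ t ∣ e then 1 else 0) else 0 := by
        intro v _
        by_cases h : v = e
        · subst h
          rw [if_pos rfl]
          split_ifs <;> simp
        · rw [if_neg h]
          split_ifs
          · simp
          · rw [coeff_X_pow, if_neg (fun h' => h h'.symm)]
      rw [sum_congr rfl this, sum_ite_eq']
      simp only [mem_Icc]
      by_cases h2 : 2 ≤ e
      · rw [if_pos ⟨h2, he⟩]
        simp [h2]
      · rw [if_neg (fun h => h2 h.1), if_neg (fun h => h2 h.1)]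
    · have : ∀ v ∈ Icc 2 n, coeff e (if ¬ t ∣ v - 1 ∧ ¬ t ∣ v then (X : ℚ⟦X⟧) ^ (2 * v - 1) else 0) =
          if v = (e + 1) / 2 then (if e % 2 = 1 ∧ ¬ t ∣ (e - 1) / 2 ∧ ¬ t ∣ (e + 1) / 2 then 1 else 0)
          else 0 := by
        intro v hv
        rw [mem_Icc] at hv
        by_cases h : v = (e + 1) / 2
        · rw [if_pos h]
          by_cases h2 : e % 2 = 1
          · have e1 : v - 1 = (e - 1) / 2 := by omega
            rw [e1, h]
            have e2 : 2 * ((e + 1) / 2) - 1 = e := by omega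
            rw [e2]
            by_cases h3 : ¬ t ∣ (e - 1) / 2 ∧ ¬ t ∣ (e + 1) / 2
            · rw [if_pos h3, if_pos ⟨h2, h3⟩, coeff_X_pow, if_pos rfl]
            · rw [if_neg h3, if_neg (fun h => h3 h.2)]
              simp
          · have e4 : ¬ (e % 2 = 1 ∧ ¬ t ∣ (e - 1) / 2 ∧ ¬ t ∣ (e + 1) / 2) := fun h => h2 h.1
            rw [if_neg e4]
            split_ifs
            · rw [coeff_X_pow, if_neg (by omega)]
            · simp
        · rw [if_neg h]
          split_ifs
          · rw [coeff_X_pow, if_neg (by omega)]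
          · simp
      rw [sum_congr rfl this, sum_ite_eq']
      simp only [mem_Icc]
      by_cases h2 : e % 2 = 1 ∧ 3 ≤ e
      · rw [if_pos ⟨by omega, by omega⟩]
        simp [h2.1, h2.2]
      · have : ¬ (e % 2 = 1 ∧ 3 ≤ e ∧ ¬ t ∣ (e - 1) / 2 ∧ ¬ t ∣ (e + 1) / 2) :=
          fun h => h2 ⟨h.1, h.2.1⟩
        rw [if_neg this]
        split_ifs with h3 h4
        · exfalso
          omega
        · rfl
        · rfl
  · have : ∀ v ∈ Icc 1 n, coeff e (if ¬ t ∣ v then (X : ℚ⟦X⟧) ^ (2 * v) else 0) =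
        if v = e / 2 then (if e % 2 = 0 ∧ ¬ t ∣ e / 2 then 1 else 0) else 0 := by
      intro v hv
      by_cases h : v = e / 2
      · subst h
        rw [if_pos rfl]
        by_cases h2 : e % 2 = 0
        · have e2 : 2 * (e / 2) = e := by omega
          rw [e2]
          by_cases h3 : t ∣ e / 2
          · rw [if_neg (not_not.2 h3), if_neg (fun h => h.2 h3)]
            simp
          · rw [if_pos h3, if_pos ⟨h2, h3⟩, coeff_X_pow, if_pos rfl]
        · have e4 : ¬ (e % 2 = 0 ∧ ¬ t ∣ e / 2) := fun h => h2 h.1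
          rw [if_neg e4]
          split_ifs
          · simp
          · rw [coeff_X_pow, if_neg (by omega)]
      · rw [if_neg h]
        split_ifs
        · simp
        · rw [coeff_X_pow, if_neg (by omega)]
    rw [sum_congr rfl this, sum_ite_eq']
    simp only [mem_Icc]
    by_cases h2 : e % 2 = 0 ∧ 2 ≤ e
    · rw [if_pos ⟨by omega, by omega⟩]
      simp [h2.1, h2.2]
    · have e4 : ¬ (e % 2 = 0 ∧ 2 ≤ e ∧ ¬ t ∣ e / 2) := fun h => h2 ⟨h.1, h.2.1⟩
      rw [if_neg e4]
      split_ifs with h3 h4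
      · exfalso
        omega
      · rfl
      · rfl

theorem b_eq (t n N : ℕ) (hN : n ≤ N) : (b t 2 n : ℚ) = coeff n (Bt t N * WN t n) := by
  have key : ∀ s : Multiset ℕ, (∀ x ∈ s, 0 < x) →
      ((∑ lam : n.Partition with (∀ x ∈ lam.parts, ¬ t ∣ x),
        if s ≤ lam.parts then 1 else 0 : ℕ) : ℚ) =
        if ∀ x ∈ s, ¬ t ∣ x then coeff n (Bt t N * X ^ s.sum) else 0 := by
    intro s hs
    rw [sum_boole, filter_filter, Nat.cast_id]
    split_ifs with h
    · rw [card_contain (fun x => ¬ t ∣ x) n s (fun x hx => ⟨hs x hx, h x hx⟩), coeff_mul_X_pow']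
      split_ifs with h2
      · exact reg_eq t N _ (by omega)
      · simp
    · have : #{lam : n.Partition | (∀ x ∈ lam.parts, ¬ t ∣ x) ∧ s ≤ lam.parts} = 0 := by
        rw [card_eq_zero, filter_eq_empty_iff]
        rintro lam - ⟨h1, h2⟩
        exact h fun x hx => h1 x (Multiset.mem_of_le h2 hx)
      rw [this]
      norm_num
  have hA : ∀ lam : n.Partition, (#(lam.parts.toFinset.filter fun v => 2 ≤ v ∧ v - 1 ∉ lam.parts) : ℚ) =
      (∑ v ∈ Icc 2 n, ((if ({v} : Multiset ℕ) ≤ lam.parts then 1 else 0 : ℕ) : ℚ)) -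
      ∑ v ∈ Icc 2 n, ((if ({v - 1, v} : Multiset ℕ) ≤ lam.parts then 1 else 0 : ℕ) : ℚ) := by
    intro lam
    rw [← sum_sub_distrib]
    have h1 : lam.parts.toFinset.filter (fun v => 2 ≤ v ∧ v - 1 ∉ lam.parts) =
        (Icc 2 n).filter fun v => v ∈ lam.parts ∧ v - 1 ∉ lam.parts := by
      ext v
      simp only [mem_filter, Multiset.mem_toFinset, mem_Icc]
      constructor
      · rintro ⟨a1, a2, a3⟩
        exact ⟨⟨a2, Nat.Partition.le_of_mem_parts a1⟩, a1, a3⟩
      · rintro ⟨⟨a1, a2⟩, a3, a4⟩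
        exact ⟨a3, a1, a4⟩
    rw [h1, card_filter, Nat.cast_sum]
    apply sum_congr rfl
    intro v hv
    rw [mem_Icc] at hv
    have h2 : ({v} : Multiset ℕ) ≤ lam.parts ↔ v ∈ lam.parts := Multiset.singleton_le
    have h3 : ({v - 1, v} : Multiset ℕ) ≤ lam.parts ↔ v - 1 ∈ lam.parts ∧ v ∈ lam.parts := by
      rw [Multiset.insert_eq_cons, Multiset.le_iff_subset (by
        rw [Multiset.nodup_cons, Multiset.mem_singleton]
        exact ⟨by omega, Multiset.nodup_singleton _⟩), Multiset.cons_subset,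
        Multiset.singleton_subset]
    rw [if_congr h2 rfl rfl, if_congr h3 rfl rfl]
    by_cases a1 : v ∈ lam.parts <;> by_cases a2 : v - 1 ∈ lam.parts <;> simp [a1, a2]
  have hB : ∀ lam : n.Partition, (#(lam.parts.toFinset.filter fun v => 2 ≤ lam.parts.count v) : ℚ) =
      ∑ v ∈ Icc 1 n, ((if ({v, v} : Multiset ℕ) ≤ lam.parts then 1 else 0 : ℕ) : ℚ) := by
    intro lam
    have h1 : lam.parts.toFinset.filter (fun v => 2 ≤ lam.parts.count v) =
        (Icc 1 n).filter fun v => ({v, v} : Multiset ℕ) ≤ lam.parts := by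
      ext v
      simp only [mem_filter, Multiset.mem_toFinset, mem_Icc]
      have h2 : ({v, v} : Multiset ℕ) = Multiset.replicate 2 v := rfl
      rw [h2, ← Multiset.le_count_iff_replicate_le]
      constructor
      · rintro ⟨a1, a2⟩
        exact ⟨⟨lam.parts_pos a1, Nat.Partition.le_of_mem_parts a1⟩, a2⟩
      · rintro ⟨_, a3⟩
        refine ⟨?_, a3⟩
        rw [← Multiset.one_le_count_iff_mem]
        omega
    rw [h1, card_filter, Nat.cast_sum]
  have h1 : (b t 2 n : ℚ) = ∑ lam : n.Partition with (∀ x ∈ lam.parts, ¬ t ∣ x),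
      (((∑ v ∈ Icc 2 n, ((if ({v} : Multiset ℕ) ≤ lam.parts then 1 else 0 : ℕ) : ℚ)) -
      ∑ v ∈ Icc 2 n, ((if ({v - 1, v} : Multiset ℕ) ≤ lam.parts then 1 else 0 : ℕ) : ℚ)) +
      ∑ v ∈ Icc 1 n, ((if ({v, v} : Multiset ℕ) ≤ lam.parts then 1 else 0 : ℕ) : ℚ)) := by
    unfold b
    rw [Nat.cast_sum]
    apply sum_congr rfl
    intro lam _
    rw [h2_eq, Nat.cast_add, hA, hB]
  rw [h1, sum_add_distrib, sum_sub_distrib, sum_comm, sum_comm (t := Icc 2 n), sum_comm (t := Icc 1 n)]
  unfold WN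
  rw [mul_add, mul_sub, map_add, map_sub, mul_sum, mul_sum, mul_sum, map_sum, map_sum, map_sum]
  congr 1
  · congr 1
    · apply sum_congr rfl
      intro v hv
      rw [mem_Icc] at hv
      rw [← Nat.cast_sum, key]
      · rw [Multiset.sum_singleton]
        simp only [Multiset.mem_singleton, forall_eq]
        split_ifs <;> simp
      · intro x hx
        rw [Multiset.mem_singleton] at hx
        omega
    · apply sum_congr rfl
      intro v hv
      rw [mem_Icc] at hv
      rw [← Nat.cast_sum, key]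
      · rw [Multiset.insert_eq_cons, Multiset.sum_cons, Multiset.sum_singleton,
          show v - 1 + v = 2 * v - 1 by omega]
        simp only [Multiset.mem_cons, Multiset.mem_singleton, forall_eq_or_imp, forall_eq]
        split_ifs <;> simp
      · intro x hx
        simp only [Multiset.insert_eq_cons, Multiset.mem_cons, Multiset.mem_singleton] at hx
        omega
  · apply sum_congr rfl
    intro v hv
    rw [mem_Icc] at hv
    rw [← Nat.cast_sum, key]
    · rw [Multiset.insert_eq_cons, Multiset.sum_cons, Multiset.sum_singleton,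
        show v + v = 2 * v by omega]
      simp only [Multiset.mem_cons, Multiset.mem_singleton, or_self, forall_eq]
      split_ifs <;> simp
    · intro x hx
      simp only [Multiset.insert_eq_cons, Multiset.mem_cons, Multiset.mem_singleton] at hx
      omega

/-! ### The closed form -/

/-- `V_t = ∑_j (q^{(2j+1)t} - q^{2t(j+1)-1}(1-q)^2)` -/
noncomputable def V (t : ℕ) : ℚ⟦X⟧ := (X ^ t - X ^ (2 * t - 1) * (1 - X) ^ 2) * u (2 * t)

/-- `W_t = 2q^2/(1-q^2) - V_t` -/
noncomputable def Wt (t : ℕ) : ℚ⟦X⟧ := 2 * (X ^ 2 * u 2) - V t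

theorem coeff_Xu (s k e : ℕ) (hk : 1 ≤ k) : coeff e (X ^ s * u k) = if s ≤ e ∧ k ∣ e - s then 1 else 0 := by
  rw [coeff_X_pow_mul']
  by_cases h : s ≤ e
  · rw [if_pos h, coeff_u k hk]
    simp [h]
  · rw [if_neg h, if_neg (fun h' => h h'.1)]

theorem coeff_Wt (t e : ℕ) (ht : 3 ≤ t) : coeff e (Wt t) = wc t e := by
  have hV : V t = X ^ t * u (2 * t) - X ^ (2 * t - 1) * u (2 * t) + 2 * (X ^ (2 * t) * u (2 * t)) -
      X ^ (2 * t + 1) * u (2 * t) := by
    unfold V
    have e1 : (X : ℚ⟦X⟧) ^ (2 * t) = X ^ (2 * t - 1) * X := by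
      rw [← pow_succ]; congr 1; omega
    have e2 : (X : ℚ⟦X⟧) ^ (2 * t + 1) = X ^ (2 * t - 1) * X ^ 2 := by
      rw [← pow_add]; congr 1; omega
    rw [e1, e2]
    ring
  have h2 : ∀ F : ℚ⟦X⟧, coeff e (2 * F) = 2 * coeff e F := by
    intro F
    rw [two_mul, map_add, two_mul]
  unfold Wt
  rw [hV]
  simp only [map_add, map_sub, h2]
  rw [coeff_Xu 2 2 e (by norm_num), coeff_Xu t _ e (by omega), coeff_Xu (2 * t - 1) _ e (by omega),
    coeff_Xu (2 * t) _ e (by omega), coeff_Xu (2 * t + 1) _ e (by omega)]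
  unfold wc
  rcases Nat.even_or_odd' e with ⟨s, rfl | rfl⟩
  · -- even
    have f1 : ¬ (2 * s % 2 = 1 ∧ 3 ≤ 2 * s ∧ ¬ t ∣ (2 * s - 1) / 2 ∧ ¬ t ∣ (2 * s + 1) / 2) := by
      intro h; omega
    have f2 : ¬ (2 * t - 1 ≤ 2 * s ∧ 2 * t ∣ 2 * s - (2 * t - 1)) := by
      rintro ⟨h1, c, h2⟩
      rw [mul_assoc] at h2
      omega
    have f3 : ¬ (2 * t + 1 ≤ 2 * s ∧ 2 * t ∣ 2 * s - (2 * t + 1)) := by
      rintro ⟨h1, c, h2⟩
      rw [mul_assoc] at h2
      omega
    rw [if_neg f1, if_neg f2, if_neg f3]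
    rcases Nat.eq_zero_or_pos s with h0 | h0
    · subst h0
      have g1 : ¬ (2 ≤ 2 * 0 ∧ 2 ∣ 2 * 0 - 2) := fun h => by omega
      have g2 : ¬ (t ≤ 2 * 0 ∧ 2 * t ∣ 2 * 0 - t) := fun h => by omega
      have g3 : ¬ (2 * t ≤ 2 * 0 ∧ 2 * t ∣ 2 * 0 - 2 * t) := fun h => by omega
      have g4 : ¬ (2 ≤ 2 * 0 ∧ ¬ t ∣ 2 * 0) := fun h => by omega
      have g5 : ¬ (2 * 0 % 2 = 0 ∧ 2 ≤ 2 * 0 ∧ ¬ t ∣ 2 * 0 / 2) := fun h => by omega
      rw [if_neg g1, if_neg g2, if_neg g3, if_neg g4, if_neg g5]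
      norm_num
    · have g1 : 2 ≤ 2 * s ∧ 2 ∣ 2 * s - 2 := ⟨by omega, by omega⟩
      rw [if_pos g1]
      have e2 : 2 * s / 2 = s := by omega
      rw [e2]
      by_cases hts : t ∣ s
      · have g2 : ¬ (t ≤ 2 * s ∧ 2 * t ∣ 2 * s - t) := by
          rintro ⟨h1, c, h2⟩
          obtain ⟨d, rfl⟩ := hts
          have h3 : t * (2 * d) = t * (2 * c + 1) := by
            have : t * (2 * d) = 2 * (t * d) := by ring
            have h4 : t * (2 * c + 1) = 2 * t * c + t := by ring
            omega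
          have := Nat.eq_of_mul_eq_mul_left (by omega : 0 < t) h3
          omega
        have g3 : 2 * t ≤ 2 * s ∧ 2 * t ∣ 2 * s - 2 * t := by
          have := Nat.le_of_dvd h0 hts
          refine ⟨by omega, ?_⟩
          rw [← Nat.mul_sub]
          exact Nat.mul_dvd_mul_left 2 (Nat.dvd_sub hts dvd_rfl)
        have g4 : ¬ (2 ≤ 2 * s ∧ ¬ t ∣ 2 * s) := fun h => h.2 (dvd_mul_of_dvd_right hts 2)
        have g5 : ¬ (2 * s % 2 = 0 ∧ 2 ≤ 2 * s ∧ ¬ t ∣ s) := fun h => h.2.2 hts
        rw [if_neg g2, if_pos g3, if_neg g4, if_neg g5]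
        norm_num
      · have g3 : ¬ (2 * t ≤ 2 * s ∧ 2 * t ∣ 2 * s - 2 * t) := by
          rintro ⟨h1, h2⟩
          apply hts
          rw [← Nat.mul_sub] at h2
          have h3 := Nat.dvd_of_mul_dvd_mul_left (by norm_num : 0 < 2) h2
          have h4 := (Nat.dvd_add_right h3).2 (dvd_refl t)
          rwa [Nat.sub_add_cancel (by omega)] at h4
        have g5 : 2 * s % 2 = 0 ∧ 2 ≤ 2 * s ∧ ¬ t ∣ s := ⟨by omega, by omega, hts⟩
        rw [if_neg g3, if_pos g5]
        by_cases h2s : t ∣ 2 * s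
        · have g2 : t ≤ 2 * s ∧ 2 * t ∣ 2 * s - t := by
            refine ⟨Nat.le_of_dvd (by omega) h2s, ?_⟩
            obtain ⟨m, hm⟩ := h2s
            rcases Nat.even_or_odd' m with ⟨c, rfl | rfl⟩
            · exfalso
              apply hts
              refine ⟨c, ?_⟩
              have : t * (2 * c) = 2 * (t * c) := by ring
              omega
            · refine ⟨c, ?_⟩
              rw [hm]
              have : t * (2 * c + 1) = 2 * t * c + t := by ring
              omega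
          have g4 : ¬ (2 ≤ 2 * s ∧ ¬ t ∣ 2 * s) := fun h => h.2 h2s
          rw [if_pos g2, if_neg g4]
          norm_num
        · have g2 : ¬ (t ≤ 2 * s ∧ 2 * t ∣ 2 * s - t) := by
            rintro ⟨h1, h2⟩
            apply h2s
            have h3 := (Nat.dvd_add_right (Nat.dvd_trans (Nat.dvd_mul_left t 2) h2)).2 (dvd_refl t)
            rwa [Nat.sub_add_cancel h1] at h3
          have g4 : 2 ≤ 2 * s ∧ ¬ t ∣ 2 * s := ⟨by omega, h2s⟩
          rw [if_neg g2, if_pos g4]
          norm_num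
  · -- odd
    have f1 : ¬ (2 ≤ 2 * s + 1 ∧ 2 ∣ 2 * s + 1 - 2) := by
      rintro ⟨h1, h2⟩; omega
    have f2 : ¬ (2 * t ≤ 2 * s + 1 ∧ 2 * t ∣ 2 * s + 1 - 2 * t) := by
      rintro ⟨h1, c, h2⟩
      rw [mul_assoc] at h2
      omega
    have f3 : ¬ ((2 * s + 1) % 2 = 0 ∧ 2 ≤ 2 * s + 1 ∧ ¬ t ∣ (2 * s + 1) / 2) := by
      intro h; omega
    rw [if_neg f1, if_neg f2, if_neg f3]
    rcases Nat.eq_zero_or_pos s with h0 | h0
    · subst h0
      have g1 : ¬ (t ≤ 2 * 0 + 1 ∧ 2 * t ∣ 2 * 0 + 1 - t) := fun h => by omega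
      have g2 : ¬ (2 * t - 1 ≤ 2 * 0 + 1 ∧ 2 * t ∣ 2 * 0 + 1 - (2 * t - 1)) := fun h => by omega
      have g3 : ¬ (2 * t + 1 ≤ 2 * 0 + 1 ∧ 2 * t ∣ 2 * 0 + 1 - (2 * t + 1)) := fun h => by omega
      have g4 : ¬ (2 ≤ 2 * 0 + 1 ∧ ¬ t ∣ 2 * 0 + 1) := fun h => by omega
      have g5 : ¬ ((2 * 0 + 1) % 2 = 1 ∧ 3 ≤ 2 * 0 + 1 ∧ ¬ t ∣ (2 * 0 + 1 - 1) / 2 ∧
        ¬ t ∣ (2 * 0 + 1 + 1) / 2) := fun h => by omega
      rw [if_neg g1, if_neg g2, if_neg g3, if_neg g4, if_neg g5]
      norm_num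
    · have e1 : (2 * s + 1 - 1) / 2 = s := by omega
      have e2 : (2 * s + 1 + 1) / 2 = s + 1 := by omega
      rw [e1, e2]
      have k1 : (t ≤ 2 * s + 1 ∧ 2 * t ∣ 2 * s + 1 - t) ↔ t ∣ 2 * s + 1 := by
        constructor
        · rintro ⟨h1, h2⟩
          have h3 := (Nat.dvd_add_right (Nat.dvd_trans (Nat.dvd_mul_left t 2) h2)).2 (dvd_refl t)
          rwa [Nat.sub_add_cancel h1] at h3
        · intro h
          refine ⟨Nat.le_of_dvd (by omega) h, ?_⟩
          obtain ⟨m, hm⟩ := h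
          rcases Nat.even_or_odd' m with ⟨c, rfl | rfl⟩
          · exfalso
            have : t * (2 * c) = 2 * (t * c) := by ring
            omega
          · refine ⟨c, ?_⟩
            rw [hm]
            have : t * (2 * c + 1) = 2 * t * c + t := by ring
            omega
      have k2 : (2 * t - 1 ≤ 2 * s + 1 ∧ 2 * t ∣ 2 * s + 1 - (2 * t - 1)) ↔ t ∣ s + 1 := by
        constructor
        · rintro ⟨h1, h2⟩
          rw [show 2 * s + 1 - (2 * t - 1) = 2 * (s + 1 - t) by omega] at h2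
          have h3 := Nat.dvd_of_mul_dvd_mul_left (by norm_num : 0 < 2) h2
          have h4 := (Nat.dvd_add_right h3).2 (dvd_refl t)
          rwa [Nat.sub_add_cancel (by omega)] at h4
        · intro h
          have := Nat.le_of_dvd (by omega) h
          refine ⟨by omega, ?_⟩
          rw [show 2 * s + 1 - (2 * t - 1) = 2 * (s + 1 - t) by omega]
          exact Nat.mul_dvd_mul_left 2 (Nat.dvd_sub h dvd_rfl)
      have k3 : (2 * t + 1 ≤ 2 * s + 1 ∧ 2 * t ∣ 2 * s + 1 - (2 * t + 1)) ↔ t ∣ s := by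
        constructor
        · rintro ⟨h1, h2⟩
          rw [show 2 * s + 1 - (2 * t + 1) = 2 * (s - t) by omega] at h2
          have h3 := Nat.dvd_of_mul_dvd_mul_left (by norm_num : 0 < 2) h2
          have h4 := (Nat.dvd_add_right h3).2 (dvd_refl t)
          rwa [Nat.sub_add_cancel (by omega)] at h4
        · intro h
          have := Nat.le_of_dvd (by omega) h
          refine ⟨by omega, ?_⟩
          rw [show 2 * s + 1 - (2 * t + 1) = 2 * (s - t) by omega]
          exact Nat.mul_dvd_mul_left 2 (Nat.dvd_sub h dvd_rfl)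
      rw [if_congr k1 rfl rfl, if_congr k2 rfl rfl, if_congr k3 rfl rfl]
      have k4 : (2 ≤ 2 * s + 1 ∧ ¬ t ∣ 2 * s + 1) ↔ ¬ t ∣ 2 * s + 1 :=
        ⟨fun h => h.2, fun h => ⟨by omega, h⟩⟩
      have k5 : ((2 * s + 1) % 2 = 1 ∧ 3 ≤ 2 * s + 1 ∧ ¬ t ∣ s ∧ ¬ t ∣ s + 1) ↔
          (¬ t ∣ s ∧ ¬ t ∣ s + 1) := ⟨fun h => h.2.2, fun h => ⟨by omega, by omega, h⟩⟩
      rw [if_congr k4 rfl rfl, if_congr k5 rfl rfl]
      have k6 : ¬ (t ∣ s ∧ t ∣ s + 1) := by
        rintro ⟨h1, h2⟩
        have := (Nat.dvd_add_right h1).1 h2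
        have := Nat.le_of_dvd (by norm_num) this
        omega
      by_cases a1 : t ∣ 2 * s + 1 <;> by_cases a2 : t ∣ s <;> by_cases a3 : t ∣ s + 1
      · exact absurd ⟨a2, a3⟩ k6
      · simp [a1, a2, a3]
      · simp [a1, a2, a3]
      · simp [a1, a2, a3]
      · exact absurd ⟨a2, a3⟩ k6
      · simp [a1, a2, a3]
      · simp [a1, a2, a3]
      · simp [a1, a2, a3]

theorem b_eq' (t n N : ℕ) (ht : 3 ≤ t) (hN : n ≤ N) : (b t 2 n : ℚ) = coeff n (Bt t N * Wt t) := by
  rw [b_eq t n N hN, coeff_mul, coeff_mul]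
  apply sum_congr rfl
  intro p hp
  rw [HasAntidiagonal.mem_antidiagonal] at hp
  rw [coeff_WN t n p.2 (by omega), coeff_Wt t p.2 ht]

/-! ### The difference `V_t - V_{t+1}` -/

/-- the `j`-th term of `V_t` -/
noncomputable def term (t j : ℕ) : ℚ⟦X⟧ :=
  X ^ ((2 * j + 1) * t) - X ^ (2 * t * (j + 1) - 1) * (1 - X) ^ 2

theorem V_trunc (t J : ℕ) (ht : 1 ≤ t) :
    V t = ∑ j ∈ range J, term t j + X ^ (2 * t * J) * V t := by
  induction J with
  | zero => simp
  | succ J ih =>
    rw [sum_range_succ]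
    have h := u_mul (2 * t) (by omega)
    have e : X ^ (2 * t * J) * V t = term t J + X ^ (2 * t * (J + 1)) * V t := by
      unfold V term
      have e1 : (X : ℚ⟦X⟧) ^ ((2 * J + 1) * t) = X ^ (2 * t * J) * X ^ t := by
        rw [← pow_add]; congr 1; ring
      have e2 : (X : ℚ⟦X⟧) ^ (2 * t * (J + 1) - 1) = X ^ (2 * t * J) * X ^ (2 * t - 1) := by
        rw [← pow_add]; congr 1
        have : 2 * t * (J + 1) = 2 * t * J + 2 * t := by ring
        omega
      have e3 : (X : ℚ⟦X⟧) ^ (2 * t * (J + 1)) = X ^ (2 * t * J) * X ^ (2 * t) := by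
        rw [← pow_add]; congr 1
      rw [e1, e2, e3]
      linear_combination (X ^ (2 * t * J) * (X ^ t - X ^ (2 * t - 1) * (1 - X) ^ 2)) * h
    rw [add_assoc, ← e]
    exact ih

/-- the `j`-th term of `(V_t - V_{t+1})/((1-q)(1-q^2))` up to the factor `q^{(2j+1)t}` -/
noncomputable def Ej (t j : ℕ) : ℚ⟦X⟧ :=
  (∑ i ∈ range (2 * j + 1), X ^ i) * u 2 - (1 - X) * X ^ (t - 1) * ∑ i ∈ range (j + 1), X ^ (2 * i)

theorem term_diff (t j : ℕ) (ht : 1 ≤ t) :
    (term t j - term (t + 1) j) * (u 1 * u 2) = X ^ ((2 * j + 1) * t) * Ej t j := by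
  unfold Ej
  have h1 := u_mul 1 le_rfl
  have h2 := u_mul 2 (by norm_num)
  have g1 := geom_eq 1 (2 * j + 1) le_rfl
  have g2 := geom_eq 2 (j + 1) (by norm_num)
  simp only [one_mul] at g1
  rw [← g1, ← g2]
  unfold term
  have e1 : (X : ℚ⟦X⟧) ^ ((2 * j + 1) * (t + 1)) = X ^ ((2 * j + 1) * t) * X ^ (2 * j + 1) := by
    rw [← pow_add]; congr 1
  have e2 : (X : ℚ⟦X⟧) ^ (2 * t * (j + 1) - 1) = X ^ ((2 * j + 1) * t) * X ^ (t - 1) := by
    rw [← pow_add]; congr 1
    have : 2 * t * (j + 1) = (2 * j + 1) * t + t := by ring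
    omega
  have e3 : (X : ℚ⟦X⟧) ^ (2 * (t + 1) * (j + 1) - 1) =
      X ^ ((2 * j + 1) * t) * X ^ (t - 1) * X ^ (2 * (j + 1)) := by
    rw [← pow_add, ← pow_add]; congr 1
    have : 2 * (t + 1) * (j + 1) = (2 * j + 1) * t + t + 2 * (j + 1) := by ring
    omega
  rw [e1, e2, e3]
  rw [pow_one] at h1
  linear_combination (-(X ^ ((2 * j + 1) * t) * X ^ (t - 1) * (1 - X) * (1 - X ^ (2 * (j + 1))) * u 2)) * h1

theorem Nn_shift (s : ℕ) : Nn (u 2 - X ^ (2 * s) * u 2) := by
  have := Nn_geom 2 s (by norm_num)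
  have e : u 2 - X ^ (2 * s) * u 2 = (1 - X ^ (2 * s)) * u 2 := by ring
  rw [e]
  exact this

theorem Nn_shift2 (s m : ℕ) : Nn (u 2 - X ^ (2 * s) * ∑ i ∈ range m, X ^ (2 * i)) := by
  rw [← geom_eq 2 m (by norm_num)]
  have e : u 2 - X ^ (2 * s) * ((1 - X ^ (2 * m)) * u 2) =
      (u 2 - X ^ (2 * s) * u 2) + X ^ (2 * s + 2 * m) * u 2 := by
    rw [pow_add]; ring
  rw [e]
  exact (Nn_shift s).add ((Nn.Xpow _).mul (Nn.u 2 (by norm_num)))

theorem Nn_tail (t j : ℕ) : Nn (X * X ^ (t - 1) * ∑ i ∈ range (j + 1), X ^ (2 * i)) := by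
  rw [← pow_succ']
  exact (Nn.Xpow _).mul (Nn.sum _ _ fun i _ => Nn.Xpow _)

theorem Nn_Ej_odd (t j : ℕ) (ht : t % 2 = 1) : Nn (Ej t j) := by
  obtain ⟨s, hs⟩ : ∃ s, t - 1 = 2 * s := ⟨(t - 1) / 2, by omega⟩
  have e : Ej t j = (u 2 - X ^ (2 * s) * ∑ i ∈ range (j + 1), X ^ (2 * i)) +
      (∑ i ∈ range (2 * j), X ^ (i + 1)) * u 2 + X * X ^ (t - 1) * ∑ i ∈ range (j + 1), X ^ (2 * i) := by
    unfold Ej
    rw [sum_range_succ', hs]
    ring
  rw [e]
  exact ((Nn_shift2 s (j + 1)).add ((Nn.sum _ _ fun i _ => Nn.Xpow _).mul (Nn.u 2 (by norm_num)))).add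
    (Nn_tail t j)

theorem Nn_Ej_even (t j : ℕ) (ht : t % 2 = 0) (ht2 : 2 ≤ t) (hj : 1 ≤ j) : Nn (Ej t j) := by
  obtain ⟨s, hs⟩ : ∃ s, t - 1 = 2 * s + 1 := ⟨(t - 2) / 2, by omega⟩
  obtain ⟨i, rfl⟩ : ∃ i, j = i + 1 := ⟨j - 1, by omega⟩
  have e : Ej t (i + 1) = X ^ 1 * (u 2 - X ^ (2 * s) * ∑ k ∈ range (i + 1 + 1), X ^ (2 * k)) +
      ((1 + X ^ 2) + (∑ k ∈ range (2 * i), X ^ (k + 1 + 1 + 1))) * u 2 +
      X * X ^ (t - 1) * ∑ k ∈ range (i + 1 + 1), X ^ (2 * k) := by
    unfold Ej
    rw [show 2 * (i + 1) + 1 = 2 * i + 1 + 1 + 1 by ring, sum_range_succ' _ (2 * i + 1 + 1),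
      sum_range_succ' _ (2 * i + 1), sum_range_succ' _ (2 * i), hs, pow_succ _ (2 * s)]
    ring
  rw [e]
  exact (((Nn.Xpow 1).mul (Nn_shift2 s _)).add (((Nn.one.add (Nn.Xpow 2)).add
    (Nn.sum _ _ fun i _ => Nn.Xpow _)).mul (Nn.u 2 (by norm_num)))).add (Nn_tail t _)

theorem Nn_Ej_zero (t : ℕ) (ht : t % 2 = 0) (ht2 : 4 ≤ t) : Nn (Ej t 0 * u 3) := by
  obtain ⟨s, hs⟩ : ∃ s, t - 1 = 2 * s + 3 := ⟨(t - 4) / 2, by omega⟩
  have h3 := u_mul 3 (by norm_num)
  have e : Ej t 0 * u 3 = u 2 + X ^ 3 * u 3 * (u 2 - X ^ (2 * s) * u 2) +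
      X ^ 3 * u 3 * X ^ (2 * s) * (X ^ 2 * u 2) + X * X ^ (t - 1) * u 3 := by
    unfold Ej
    have h2 := u_mul 2 (by norm_num)
    rw [hs, pow_add]
    simp only [mul_zero, zero_add, range_one, sum_singleton, pow_zero, one_mul, mul_one]
    linear_combination (u 2) * h3 + (X ^ 3 * u 3 * X ^ (2 * s)) * h2
  rw [e]
  have n3 := Nn.u 3 (by norm_num)
  have n2 := Nn.u 2 (by norm_num)
  refine ((n2.add (((Nn.Xpow 3).mul n3).mul (Nn_shift s))).add
    ((((Nn.Xpow 3).mul n3).mul (Nn.Xpow _)).mul ((Nn.Xpow 2).mul n2))).add ?_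
  rw [← pow_succ']
  exact (Nn.Xpow _).mul n3

theorem Nn_of_terms (t : ℕ) (ht : 1 ≤ t) (F : ℚ⟦X⟧) (h : ∀ j, Nn (Ej t j * F)) :
    Nn ((V t - V (t + 1)) * (u 1 * u 2) * F) := by
  intro n
  have e : (V t - V (t + 1)) * (u 1 * u 2) * F =
      ∑ j ∈ range (n + 1), X ^ ((2 * j + 1) * t) * (Ej t j * F) +
      X ^ (2 * t * (n + 1)) * (V t * (u 1 * u 2) * F) -
      X ^ (2 * (t + 1) * (n + 1)) * (V (t + 1) * (u 1 * u 2) * F) := by
    have h1 := V_trunc t (n + 1) ht
    have h2 := V_trunc (t + 1) (n + 1) (by omega)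
    have h3 : ∑ j ∈ range (n + 1), X ^ ((2 * j + 1) * t) * (Ej t j * F) =
        (∑ j ∈ range (n + 1), term t j - ∑ j ∈ range (n + 1), term (t + 1) j) * (u 1 * u 2) * F := by
      rw [← sum_sub_distrib, sum_mul, sum_mul]
      apply sum_congr rfl
      intro j _
      rw [term_diff t j ht]
      ring
    rw [h3]
    linear_combination ((u 1 * u 2) * F) * h1 - ((u 1 * u 2) * F) * h2
  rw [e, map_sub, map_add, coeff_X_pow_mul', coeff_X_pow_mul', if_neg, if_neg, add_zero, sub_zero]
  · exact (Nn.sum _ _ fun j _ => (Nn.Xpow _).mul (h j)) n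
  · have : n + 1 ≤ 2 * (t + 1) * (n + 1) := Nat.le_mul_of_pos_left _ (by omega)
    omega
  · have : n + 1 ≤ 2 * t * (n + 1) := Nat.le_mul_of_pos_left _ (by omega)
    omega

/-! ### The theorem -/

theorem prod_factor (S : Finset ℕ) (hS : ∀ k ∈ S, 1 ≤ k) (a : ℕ) (ha : a ∈ S) :
    ∃ F, Nn F ∧ ∏ k ∈ S, u k = u a * F ∧ F = ∏ k ∈ S.erase a, u k := by
  refine ⟨∏ k ∈ S.erase a, u k, Nn.prod _ _ fun k hk => Nn.u k (hS k (mem_of_mem_erase hk)),
    (mul_prod_erase S u ha).symm, rfl⟩

theorem wc_nonneg (t e : ℕ) (ht : t % 2 = 0) : 0 ≤ wc t e := by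
  unfold wc
  by_cases h : e % 2 = 1 ∧ 3 ≤ e ∧ ¬ t ∣ (e - 1) / 2 ∧ ¬ t ∣ (e + 1) / 2
  · have h1 : 2 ≤ e ∧ ¬ t ∣ e := by
      refine ⟨by omega, ?_⟩
      intro h2
      have h3 : 2 ∣ e := Nat.dvd_trans (Nat.dvd_of_mod_eq_zero ht) h2
      omega
    rw [if_pos h, if_pos h1]
    split_ifs <;> norm_num
  · rw [if_neg h]
    split_ifs <;> norm_num

theorem second (t n N : ℕ) (ht : 3 ≤ t) (hN : n ≤ N) (s : ℕ) (hs : s % 2 = 0) (hs3 : 3 ≤ s) :
    0 ≤ coeff n ((Bt (t + 1) N - Bt t N) * Wt s) := by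
  rw [coeff_mul]
  apply sum_nonneg
  intro p hp
  rw [HasAntidiagonal.mem_antidiagonal] at hp
  rw [map_sub, coeff_Wt s _ hs3]
  exact mul_nonneg (sub_nonneg.2 (Bt_mono t N _ (by omega) (by omega))) (wc_nonneg s _ hs)

/-- **Theorem.** `b_{t+1,2}(n) ≥ b_{t,2}(n)` for all `t ≥ 3` and `n ≥ 0`. -/
theorem result : ∀ t : ℕ, 3 ≤ t → ∀ n : ℕ, b t 2 n ≤ b (t + 1) 2 n := by
  intro t ht n
  have h1 := b_eq' t n (n + 3) ht (by omega)
  have h2 := b_eq' (t + 1) n (n + 3) (by omega) (by omega)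
  have hmem : ∀ s k : ℕ, 1 ≤ k → k ≤ 3 → ¬ s ∣ k → k ∈ (Icc 1 (n + 3)).filter (fun k => ¬ s ∣ k) := by
    intro s k h1 h2 h3
    rw [mem_filter, mem_Icc]
    exact ⟨⟨h1, by omega⟩, h3⟩
  have hpos : ∀ s : ℕ, ∀ k ∈ (Icc 1 (n + 3)).filter (fun k => ¬ s ∣ k), 1 ≤ k := by
    intro s k hk
    rw [mem_filter, mem_Icc] at hk
    exact hk.1.1
  have hnd : ∀ s k : ℕ, 1 ≤ k → k < s → ¬ s ∣ k := fun s k h1 h2 h3 => by
    have := Nat.le_of_dvd (by omega) h3
    omega
  have key : (b t 2 n : ℚ) ≤ (b (t + 1) 2 n : ℚ) := by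
    rw [h1, h2]
    rcases Nat.even_or_odd' t with ⟨c, hc | hc⟩
    · -- `t` even
      have h3 := second t n (n + 3) ht (by omega) t (by omega) ht
      have h4 : Nn (Bt (t + 1) (n + 3) * (V t - V (t + 1))) := by
        obtain ⟨F1, hF1, e1, d1⟩ := prod_factor _ (hpos (t + 1)) 1
          (hmem (t + 1) 1 le_rfl (by norm_num) (hnd _ _ le_rfl (by omega)))
        obtain ⟨F2, hF2, e2, d2⟩ := prod_factor (((Icc 1 (n + 3)).filter
          (fun k => ¬ (t + 1) ∣ k)).erase 1) (fun k hk => hpos (t + 1) k (mem_of_mem_erase hk)) 2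
          (mem_erase.2 ⟨by norm_num, hmem (t + 1) 2 (by norm_num) (by norm_num)
            (hnd _ _ (by norm_num) (by omega))⟩)
        obtain ⟨F3, hF3, e3, d3⟩ := prod_factor ((((Icc 1 (n + 3)).filter
          (fun k => ¬ (t + 1) ∣ k)).erase 1).erase 2)
          (fun k hk => hpos (t + 1) k (mem_of_mem_erase (mem_of_mem_erase hk))) 3
          (mem_erase.2 ⟨by norm_num, mem_erase.2 ⟨by norm_num, hmem (t + 1) 3 (by norm_num) le_rfl
            (hnd _ _ (by norm_num) (by omega))⟩⟩)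
        have e : Bt (t + 1) (n + 3) * (V t - V (t + 1)) =
            (V t - V (t + 1)) * (u 1 * u 2) * u 3 * F3 := by
          unfold Bt
          rw [e1, d1, e2, d2, e3]
          ring
        rw [e]
        refine (Nn_of_terms t (by omega) (u 3) ?_).mul hF3
        intro j
        rcases Nat.eq_zero_or_pos j with hj | hj
        · subst hj
          exact Nn_Ej_zero t (by omega) (by omega)
        · exact (Nn_Ej_even t j (by omega) (by omega) hj).mul (Nn.u 3 (by norm_num))
      have h5 := h4 n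
      have e : Bt (t + 1) (n + 3) * Wt (t + 1) - Bt t (n + 3) * Wt t =
          Bt (t + 1) (n + 3) * (V t - V (t + 1)) + (Bt (t + 1) (n + 3) - Bt t (n + 3)) * Wt t := by
        unfold Wt
        ring
      have e' := congrArg (coeff n) e
      rw [map_sub, map_add] at e'
      linarith
    · -- `t` odd
      have h3 := second t n (n + 3) ht (by omega) (t + 1) (by omega) (by omega)
      have h4 : Nn (Bt t (n + 3) * (V t - V (t + 1))) := by
        obtain ⟨F1, hF1, e1, d1⟩ := prod_factor _ (hpos t) 1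
          (hmem t 1 le_rfl (by norm_num) (hnd _ _ le_rfl (by omega)))
        obtain ⟨F2, hF2, e2, d2⟩ := prod_factor (((Icc 1 (n + 3)).filter
          (fun k => ¬ t ∣ k)).erase 1) (fun k hk => hpos t k (mem_of_mem_erase hk)) 2
          (mem_erase.2 ⟨by norm_num, hmem t 2 (by norm_num) (by norm_num)
            (hnd _ _ (by norm_num) (by omega))⟩)
        have e : Bt t (n + 3) * (V t - V (t + 1)) = (V t - V (t + 1)) * (u 1 * u 2) * F2 := by
          unfold Bt
          rw [e1, d1, e2]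
          ring
        rw [e]
        exact Nn_of_terms t (by omega) F2 fun j => (Nn_Ej_odd t j (by omega)).mul hF2
      have h5 := h4 n
      have e : Bt (t + 1) (n + 3) * Wt (t + 1) - Bt t (n + 3) * Wt t =
          Bt t (n + 3) * (V t - V (t + 1)) + (Bt (t + 1) (n + 3) - Bt t (n + 3)) * Wt (t + 1) := by
        unfold Wt
        ring
      have e' := congrArg (coeff n) e
      rw [map_sub, map_add] at e'
      linarith
  exact_mod_cast key

end Pool.Agent.Results.MP_6996b5_co.TwoHookMonotone
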